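import Mathlib
import Pool.Agent.Y920.ETC.Stm

set_option autoImplicit false

/-! Statements for the project on fields with small norm groups, `p` odd. -/

namespace Pool.Agent.Y920.EP

/-! ### sums and classes

`φ : F* → A` is a homomorphism onto an abelian group with `φ(-1) = 1`; think of the classes modulo
`T = ker φ`. -/

/-- a homomorphism from the units of a field onto an abelian group `A` and subgroups `N(a)` of `A`
with at most `N` elements -/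
structure Sys {F : Type} [Field F] {A : Type} [CommGroup A] (φ : Fˣ →* A) (Nn : A → Subgroup A)
    (N : ℕ) : Prop where
  surj : Function.Surjective φ
  neg : φ (-1) = 1
  symm : ∀ a b : A, b ∈ Nn a → a ∈ Nn b
  sum : ∀ u v : Fˣ, (v : F) = 1 + u → φ v ∈ Nn (φ u)
  fin : ∀ a : A, a ≠ 1 → (Nn a : Set A).Finite ∧ (Nn a : Set A).ncard ≤ N

/-- `w` is much smaller than `y`: `y + w` is not zero and has the class of `y` -/
def Ml {F : Type} [Field F] {A : Type} [CommGroup A] (φ : Fˣ →* A) (w y : Fˣ) : Prop :=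
  ∃ z : Fˣ, (z : F) = y + w ∧ φ z = φ y

/-- with at most `k` exceptional classes of `w`, `w ≪ y` implies `w ≪ z` -/
def Le {F : Type} [Field F] {A : Type} [CommGroup A] (φ : Fˣ →* A) (k : ℕ) (y z : Fˣ) : Prop :=
  ∃ B : Finset A, B.card ≤ k ∧ ∀ w : Fˣ, φ w ∉ B → Ml φ w y → Ml φ w z

/-- `y` is a unit up to `k` exceptional classes -/
def En {F : Type} [Field F] {A : Type} [CommGroup A] (φ : Fˣ →* A) (k : ℕ) (y : Fˣ) : Prop :=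
  Le φ k 1 y ∧ Le φ k y 1

/-- the sum of elements of different classes -/
def HL {F : Type} [Field F] {A : Type} [CommGroup A] (φ : Fˣ →* A) (M : ℕ) : Prop :=
  ∀ x y z : Fˣ, (z : F) = x + y → φ x ≠ φ y → Le φ M x z ∧ Le φ M y z

/-- the classes that are not rigid -/
def NR {F : Type} [Field F] {A : Type} [CommGroup A] (φ : Fˣ →* A) : Set A :=
  {a | a ≠ 1 ∧ ∃ r s : Fˣ, φ r = a ∧ (r : F) + s = 1 ∧ φ s ≠ 1 ∧ φ s ≠ a}

def S_L1 : Prop := ∀ (F : Type) [Field F] (A : Type) [CommGroup A] (φ : Fˣ →* A)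
  (Nn : A → Subgroup A) (N : ℕ), Sys φ Nn N → HL φ (N ^ 2)

def S_CALC : Prop := ∀ (F : Type) [Field F] (A : Type) [CommGroup A] (φ : Fˣ →* A) (M : ℕ),
  φ (-1) = 1 → HL φ M →
  (∀ y : Fˣ, φ y ≠ 1 → Le φ (2 * M) 1 y ∨ Le φ (2 * M) y 1) ∧
  (∀ (k : ℕ) (y z : Fˣ), φ y ≠ 1 → En φ k y → (z : F) = 1 + y → En φ (k + M) z) ∧
  (∀ r s : Fˣ, (r : F) + s = 1 → φ r ≠ 1 → φ s ≠ 1 → φ s ≠ φ r → En φ M r)

def S_RU : Prop := ∀ (F : Type) [Field F] (A : Type) [CommGroup A] (φ : Fˣ →* A) (M : ℕ),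
  φ (-1) = 1 → HL φ M → S_CALC →
  ∀ r : Fˣ, φ r ≠ 1 → En φ M r → ∀ (n : ℕ) (e : Fˣ), 1 ≤ n → e ^ n = 1 →
    En φ (n * (3 * M)) e

def S_DIFF : Prop := S_CALC → S_RU → ∀ (F : Type) [Field F] (p : ℕ), p.Prime → p ≠ 2 →
  ∀ ζ : Fˣ, IsPrimitiveRoot ζ p → ∀ (A : Type) [CommGroup A] (φ : Fˣ →* A) (M : ℕ),
    φ (-1) = 1 → HL φ M →
    ∀ y z : Fˣ, φ y ≠ 1 → En φ M y → En φ M z → (∀ i : ℕ, φ y ≠ φ (ζ ^ i * z)) →
      ∃ d : Fˣ, (d : F) = (y : F) ^ p - (z : F) ^ p ∧ En φ (p * (6 * p + 4) * M) d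

def S_SU : Prop := ∀ (F : Type) [Field F] (A : Type) [CommGroup A] (φ : Fˣ →* A) (k : ℕ)
  (G : Finset A), (∀ g ∈ G, ∃ w : Fˣ, φ w = g ∧ En φ k w ∧ Ml φ w 1) → G.card ≤ 2 * k + 1

def S_PIG : Prop := S_CALC → ∀ (F : Type) [Field F] (p : ℕ), 3 ≤ p → ∀ (A : Type) [CommGroup A]
  (φ : Fˣ →* A) (Nn : A → Subgroup A) (N M : ℕ), Sys φ Nn N → HL φ M →
  (∀ x : Fˣ, φ x ^ p = 1) →
  ∀ r : Fˣ, φ r ≠ 1 → En φ M r → ∀ y : Fin N → Fˣ, (∀ i, En φ M (y i)) →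
    ∀ d : Fin N → Fin N → Fˣ, (∀ i j, i ≠ j → ((d i j : Fˣ) : F) = (y i : F) ^ p - (y j : F) ^ p ∧
      En φ (p * (6 * p + 4) * M) (d i j)) →
    ∃ w : Fˣ, En φ (9 * p ^ 2 * M) w ∧ Ml φ w 1 ∧
      (φ w = φ r ∨ φ w = (φ r)⁻¹ ∨
        (∃ i j, i ≠ j ∧ ∃ n ∈ Nn (φ r), n ≠ 1 ∧ φ w = φ (d i j) * n) ∨
        (φ w ∈ Nn (φ r) ∧ φ w ≠ 1))

/-- counting fibres in an abelian group -/
def S_FIB : Prop := ∀ (A : Type) [CommGroup A] [DecidableEq A] (Nn : A → Subgroup A) (N : ℕ),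
  (∀ a b : A, b ∈ Nn a → a ∈ Nn b) → (∀ a : A, a ∈ Nn a) →
  (∀ a : A, a ≠ 1 → (Nn a : Set A).Finite ∧ (Nn a : Set A).ncard ≤ N) →
  ∀ (X D : Finset A) (f : A → A) (m : ℕ), D.card ≤ N ^ 2 → (X.image f).card ≤ m →
    (∀ a ∈ X, a ≠ 1 ∧ (f a = a ∨ f a = a⁻¹ ∨ (∃ d ∈ D, ∃ n ∈ Nn a, n ≠ 1 ∧ f a = d * n) ∨
      (f a ∈ Nn a ∧ f a ≠ 1))) →
    X.card ≤ m * (N ^ 3 + N + 2)

/-- many elements contain `N` elements of different cosets -/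
def S_PICK : Prop := ∀ (A : Type) [CommGroup A] (z : A) (p N : ℕ), 1 ≤ p → z ^ p = 1 →
  ∀ X : Finset A, p * N < X.card →
    ∃ f : Fin N → A, (∀ i, f i ∈ X) ∧ ∀ i j, i ≠ j → ∀ k : ℕ, f i ≠ z ^ k * f j

/-- the number of classes that are not rigid -/
def S_CNT : Prop := S_L1 → S_CALC → S_RU → S_DIFF → S_SU → S_PIG → S_FIB → S_PICK →
  ∀ (F : Type) [Field F] (p : ℕ), p.Prime → p ≠ 2 → ∀ ζ : Fˣ, IsPrimitiveRoot ζ p →
    ∀ (A : Type) [CommGroup A] (φ : Fˣ →* A) (Nn : A → Subgroup A) (N : ℕ), Sys φ Nn N →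
      (∀ x : Fˣ, φ x ^ p = 1) → (NR φ).Finite ∧ (NR φ).ncard ≤ 38 * p ^ 2 * N ^ 5

/-- the group generated by the classes that are not rigid -/
def S_GRP : Prop := S_SU → ∀ (F : Type) [Field F] (p : ℕ), p.Prime → p ≠ 2 →
  ∀ (A : Type) [CommGroup A] (φ : Fˣ →* A) (N : ℕ), 1 ≤ N → Function.Surjective φ →
    (∀ a : A, a ^ p = 1) → (NR φ).Finite → (NR φ).ncard ≤ 38 * p ^ 2 * N ^ 5 →
    (∀ a ∈ NR φ, ∃ r : Fˣ, φ r = a ∧ En φ (N ^ 2) r) →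
    (∀ x : Fˣ, φ x ∉ NR φ → φ x ≠ 1 → Ml φ x 1 ∨ Ml φ x⁻¹ 1) →
    Nat.card (Subgroup.closure (NR φ)) ≠ 0 ∧
      Nat.card (Subgroup.closure (NR φ)) ≤ 78 * p ^ 2 * N ^ 5

/-! ### valuation rings from rigid elements -/

open Pool.Agent.Y920.ETC (PCD Compat)

/-- `T ≤ H ≤ F*`, `-1 ∈ H` and `1 + x ∈ T ∪ xT` for all `x ∉ H` -/
structure RP {F : Type} [Field F] (T H : Subgroup Fˣ) : Prop where
  le : T ≤ H
  neg : (-1 : Fˣ) ∈ H
  rigid : ∀ x : Fˣ, x ∉ H → (∃ t ∈ T, (t : F) = 1 + x) ∨ (∃ t ∈ T, ((x * t : Fˣ) : F) = 1 + x)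

def S_PCD : Prop := ∀ (F : Type) [Field F] (T H : Subgroup Fˣ), RP T H →
  (∀ x : Fˣ, x * x ∈ H → x ∈ H) → PCD T H

def S_WB' : Prop := ∀ (F : Type) [Field F] (T H : Subgroup Fˣ), RP T H → PCD T H →
  ∃ O : ValuationSubring F, Compat T H O

def S_COARSE' : Prop := ∀ (F : Type) [Field F] (p : ℕ), p.Prime → (p : F) ≠ 0 →
  ∀ (T H : Subgroup Fˣ), (∀ x : Fˣ, x ∈ T ↔ ∃ y : Fˣ, x = y ^ p) → T ≤ H →
    ∀ O : ValuationSubring F, Compat T H O →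
      ∃ O' : ValuationSubring F, O ≤ O' ∧ (p : F)⁻¹ ∈ O' ∧ Compat T H O'

/-! ### extensions of valuation rings -/

/-- `p` is a unit of `O` and all elements of `1 + m` are `p`-th powers -/
def Pw {F : Type} [Field F] (p : ℕ) (O : ValuationSubring F) : Prop :=
  (p : F)⁻¹ ∈ O ∧ (p : F) ≠ 0 ∧ ∀ x : F, x ∈ O → x⁻¹ ∉ O → ∃ y : F, y ^ p = 1 + x

/-- cyclic extensions of degree `p`: uniqueness -/
def S_KUM : Prop := ∀ (p : ℕ), p.Prime → ∀ (F L : Type) [Field F] [Field L] [Algebra F L]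
  [FiniteDimensional F L] [IsGalois F L], (∃ ζ : F, IsPrimitiveRoot ζ p) →
    Module.finrank F L = p → ∀ O : ValuationSubring F,
    (∀ x : F, x ∈ O → x⁻¹ ∉ O → ∃ y : F, y ^ p = 1 + x) →
    ∀ O₁ O₂ : ValuationSubring L, O₁.comap (algebraMap F L) = O →
      O₂.comap (algebraMap F L) = O → O₁ = O₂

/-- cyclic extensions of degree `p`: going up -/
def S_UP : Prop := ∀ (p : ℕ), p.Prime → p ≠ 2 → ∀ (F L : Type) [Field F] [Field L] [Algebra F L]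
  [FiniteDimensional F L] [IsGalois F L], (∃ ζ : F, IsPrimitiveRoot ζ p) →
    Module.finrank F L = p → ∀ O : ValuationSubring F, Pw p O →
    ∀ O₁ : ValuationSubring L, O₁.comap (algebraMap F L) = O →
      (∀ (σ : L ≃ₐ[F] L) (x : L), σ x ∈ O₁ ↔ x ∈ O₁) → Pw p O₁

/-- towers -/
def S_TOWER' : Prop := S_KUM → S_UP → ∀ (p : ℕ), p.Prime → p ≠ 2 → ∀ (k : ℕ) (F M : Type)
  [Field F] [Field M] [Algebra F M] [FiniteDimensional F M] [IsGalois F M],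
    (∃ ζ : F, IsPrimitiveRoot ζ p) → Module.finrank F M = p ^ k →
    ∀ O : ValuationSubring F, Pw p O → ∀ O₁ O₂ : ValuationSubring M,
      O₁.comap (algebraMap F M) = O → O₂.comap (algebraMap F M) = O → O₁ = O₂

/-- nontrivial inertia -/
def S_INERT' : Prop := ∀ (p : ℕ), p.Prime → ∀ (F K : Type) [Field F] [Field K] [Algebra F K]
  [IsGalois F K], (∃ ζ : F, IsPrimitiveRoot ζ p) →
  ∀ O : ValuationSubring K, (∀ (σ : K ≃ₐ[F] K) (x : K), σ x ∈ O ↔ x ∈ O) →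
    ∀ (c : F) (y : K), c ≠ 0 → y ^ p = algebraMap F K c →
      (∀ f : F, f ≠ 0 → algebraMap F K (c * f ^ p) ∈ O → algebraMap F K (c * f ^ p)⁻¹ ∉ O) →
      ∃ σ : K ≃ₐ[F] K, σ ≠ 1 ∧ ∀ x : K, x ∈ O → O.valuation (σ x - x) < 1

/-- the maximal p-extension -/
def S_MAX' : Prop := ∀ (p : ℕ), p.Prime → ∀ (F : Type) [Field F],
  (∃ ζ : F, IsPrimitiveRoot ζ p) → ∀ K : IntermediateField F (AlgebraicClosure F),
    K = sSup {L : IntermediateField F (AlgebraicClosure F) |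
      FiniteDimensional F L ∧ IsGalois F L ∧ ∃ k : ℕ, Module.finrank F L = p ^ k} →
    IsGalois F K ∧
    (∀ x : K, ∃ L : IntermediateField F K, x ∈ L ∧ FiniteDimensional F L ∧ IsGalois F L ∧
      ∃ k : ℕ, Module.finrank F L = p ^ k) ∧
    ∀ c : F, ∃ y : K, y ^ p = algebraMap F K c

/-! ### norm groups -/

open Polynomial in
/-- the norms of the units of `F[X]/(X^p - a)`: the norm group of `F(a^(1/p))` if `a` is not a
`p`-th power -/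
noncomputable def nmG {F : Type} [Field F] (p : ℕ) (a : Fˣ) : Subgroup Fˣ :=
  (Units.map (Algebra.norm F : AdjoinRoot (X ^ p - C (a : F)) →* F)).range

/-- the group of `p`-th powers -/
def pwG (F : Type) [Field F] (p : ℕ) : Subgroup Fˣ := (powMonoidHom p : Fˣ →* Fˣ).range

def S_SYMM : Prop := ∀ (p : ℕ), p.Prime → p ≠ 2 → ∀ (F : Type) [Field F] (ζ : F),
  IsPrimitiveRoot ζ p → ∀ a b : Fˣ, a ∉ pwG F p → b ∉ pwG F p → b ∈ nmG p a → a ∈ nmG p b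

def S_NG : Prop := ∀ (p : ℕ), p.Prime → p ≠ 2 → ∀ (F : Type) [Field F],
  (∀ a x : Fˣ, x ^ p ∈ nmG p a) ∧
  (∀ u v : Fˣ, (v : F) = 1 + u → v ∈ nmG p u) ∧
  (∀ a b : Fˣ, nmG p (a * b ^ p) = nmG p a)

end Pool.Agent.Y920.EP
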