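import Mathlib
import Pool.Agent.Y920.EP.Stm

set_option autoImplicit false

/-! Basic calculus of `Le` and `En`. -/

namespace Pool.Agent.Y920.EP

section base

variable {F : Type} [Field F] {A : Type} [CommGroup A] {φ : Fˣ →* A}

lemma phi_neg (h : φ (-1) = 1) (x : Fˣ) : φ (-x) = φ x := by
  rw [show -x = (-1) * x by simp, map_mul, h, one_mul]

lemma ml_mul (c w y : Fˣ) : Ml φ (c * w) (c * y) ↔ Ml φ w y := by
  constructor
  · rintro ⟨z, hz, e⟩
    refine ⟨c⁻¹ * z, ?_, ?_⟩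
    · rw [Units.val_mul, Units.val_inv_eq_inv_val, hz, Units.val_mul, Units.val_mul, ← mul_add,
        inv_mul_cancel_left₀ c.ne_zero]
    · rw [map_mul, e, ← map_mul, inv_mul_cancel_left]
  · rintro ⟨z, hz, e⟩
    refine ⟨c * z, ?_, ?_⟩
    · rw [Units.val_mul, hz, Units.val_mul, Units.val_mul, mul_add]
    · rw [map_mul, e, ← map_mul]

lemma ml_iff_add (w y z : Fˣ) (hz : (z : F) = y + w) : Ml φ w y ↔ φ z = φ y := by
  constructor
  · rintro ⟨z', hz', e⟩
    rw [Units.ext (hz.trans hz'.symm)]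
    exact e
  · exact fun e => ⟨z, hz, e⟩

/-- sums of elements of different classes are not zero -/
lemma add_ne (h : φ (-1) = 1) {x y : Fˣ} (hxy : φ x ≠ φ y) : (x : F) + y ≠ 0 := by
  intro e
  apply hxy
  have : x = -y := Units.ext (by rw [Units.val_neg]; linear_combination e)
  rw [this, phi_neg h]

lemma le_refl' (k : ℕ) (y : Fˣ) : Le φ k y y := ⟨∅, by simp, fun _ _ h => h⟩

lemma le_mono {k l : ℕ} (hkl : k ≤ l) {y z : Fˣ} (h : Le φ k y z) : Le φ l y z := by
  obtain ⟨B, hB, h⟩ := h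
  exact ⟨B, hB.trans hkl, h⟩

lemma le_tr {k l : ℕ} {x y z : Fˣ} (h1 : Le φ k x y) (h2 : Le φ l y z) : Le φ (k + l) x z := by
  classical
  obtain ⟨B, hB, h1⟩ := h1
  obtain ⟨C, hC, h2⟩ := h2
  refine ⟨B ∪ C, (Finset.card_union_le _ _).trans (Nat.add_le_add hB hC), fun w hw h => ?_⟩
  rw [Finset.mem_union, not_or] at hw
  exact h2 w hw.2 (h1 w hw.1 h)

lemma le_mul {k : ℕ} (c : Fˣ) {y z : Fˣ} (h : Le φ k y z) : Le φ k (c * y) (c * z) := by
  classical
  obtain ⟨B, hB, h⟩ := h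
  refine ⟨B.image fun b => φ c * b, Finset.card_image_le.trans hB, fun w hw h1 => ?_⟩
  have e : c * (c⁻¹ * w) = w := mul_inv_cancel_left c w
  rw [← e, ml_mul] at h1 ⊢
  refine h _ (fun hc => hw ?_) h1
  rw [Finset.mem_image]
  exact ⟨_, hc, by rw [← map_mul, e]⟩

lemma le_mul_iff {k : ℕ} (c : Fˣ) {y z : Fˣ} : Le φ k (c * y) (c * z) ↔ Le φ k y z := by
  refine ⟨fun h => ?_, le_mul c⟩
  have := le_mul c⁻¹ h
  rwa [inv_mul_cancel_left, inv_mul_cancel_left] at this

lemma en_one (k : ℕ) : En φ k 1 := ⟨le_refl' k 1, le_refl' k 1⟩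

lemma en_mono {k l : ℕ} (hkl : k ≤ l) {y : Fˣ} (h : En φ k y) : En φ l y :=
  ⟨le_mono hkl h.1, le_mono hkl h.2⟩

lemma en_mul {k l : ℕ} {y z : Fˣ} (hy : En φ k y) (hz : En φ l z) : En φ (k + l) (y * z) := by
  constructor
  · refine le_tr hy.1 ?_
    have := le_mul y hz.1
    rwa [mul_one] at this
  · have := le_mul y hz.2
    rw [mul_one] at this
    rw [add_comm]
    exact le_tr this hy.2

lemma en_inv {k : ℕ} {y : Fˣ} (hy : En φ k y) : En φ k y⁻¹ := by
  constructor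
  · have := le_mul y⁻¹ hy.2
    rwa [inv_mul_cancel, mul_one] at this
  · have := le_mul y⁻¹ hy.1
    rwa [inv_mul_cancel, mul_one] at this

lemma en_div {k l : ℕ} {y z : Fˣ} (hy : En φ k y) (hz : En φ l z) : En φ (k + l) (y / z) := by
  rw [div_eq_mul_inv]
  exact en_mul hy (en_inv hz)

lemma en_pow {k : ℕ} {y : Fˣ} (hy : En φ k y) (n : ℕ) : En φ (n * k) (y ^ n) := by
  induction n with
  | zero => rw [pow_zero]; exact en_one _
  | succ n ih =>
    rw [pow_succ, Nat.succ_mul]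
    exact en_mul ih hy

/-- products -/
lemma en_prod {ι : Type} (s : Finset ι) {k : ℕ} {f : ι → Fˣ} (hf : ∀ i ∈ s, En φ k (f i)) :
    En φ (s.card * k) (∏ i ∈ s, f i) := by
  classical
  induction s using Finset.induction_on with
  | empty => rw [Finset.prod_empty]; exact en_one _
  | insert a s ha ih =>
    rw [Finset.prod_insert ha, Finset.card_insert_of_notMem ha, Nat.succ_mul, add_comm]
    exact en_mul (hf a (Finset.mem_insert_self a s))
      (ih fun i hi => hf i (Finset.mem_insert_of_mem hi))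

/-- `a ∈ N(a)` -/
lemma self_mem {Nn : A → Subgroup A} {N : ℕ} (h : Sys φ Nn N) (a : A) : a ∈ Nn a := by
  by_cases ha : a = 1
  · rw [ha]; exact one_mem _
  obtain ⟨u, rfl⟩ := h.surj a
  have hu : (1 : F) + u ≠ 0 := by
    have := add_ne h.neg (x := 1) (y := u) (by rw [map_one]; exact fun e => ha e.symm)
    rwa [Units.val_one] at this
  have h1 := h.sum u (Units.mk0 _ hu) (Units.val_mk0 hu)
  have h2 := h.sum u⁻¹ (Units.mk0 _ hu / u) (by
    rw [Units.val_div_eq_div_val, Units.val_mk0, Units.val_inv_eq_inv_val]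
    field_simp
    ring)
  have h3 : φ (Units.mk0 _ hu / u) ∈ Nn (φ u) := by
    have h4 := h.symm _ _ h2
    rw [map_inv] at h4
    exact h.symm _ _ (inv_mem_iff.1 h4)
  have h5 := div_mem h1 h3
  rw [← map_div, div_div_cancel] at h5
  exact h5

end base

end Pool.Agent.Y920.EP
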