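import Mathlib
import Pool.Agent.Y920.EP.Base

set_option autoImplicit false

/-! Fields with small norm groups, `p` odd: from norm groups to a compatible valuation ring. -/

namespace Pool.Agent.Y920.EP

open Pool.Agent.Y920.ETC (PCD Compat)

section quot

variable {F : Type} [Field F] {p : ℕ}

lemma mem_pwG {a : Fˣ} : a ∈ pwG F p ↔ ∃ b : Fˣ, a = b ^ p := by
  rw [pwG, MonoidHom.mem_range]
  constructor
  · rintro ⟨b, rfl⟩; exact ⟨b, rfl⟩
  · rintro ⟨b, rfl⟩; exact ⟨b, rfl⟩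

/-- the class group as an abstract group -/
lemma exists_quot (F : Type) [Field F] (T : Subgroup Fˣ) : ∃ (A : Type) (_ : CommGroup A)
    (φ : Fˣ →* A), Function.Surjective φ ∧ φ.ker = T :=
  ⟨Fˣ ⧸ T, inferInstance, QuotientGroup.mk' T, QuotientGroup.mk'_surjective T,
    QuotientGroup.ker_mk' T⟩

variable {A : Type} [CommGroup A] {φ : Fˣ →* A} (hφ : Function.Surjective φ)
  (hk : φ.ker = pwG F p)

include hk in
lemma phi_one {a : Fˣ} : φ a = 1 ↔ ∃ b : Fˣ, a = b ^ p := by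
  rw [← MonoidHom.mem_ker, hk, mem_pwG]

include hφ hk in
lemma exp_p (a : A) : a ^ p = 1 := by
  obtain ⟨u, rfl⟩ := hφ a
  rw [← map_pow, phi_one hk]
  exact ⟨u, rfl⟩

open Classical in
/-- the norm groups in the class group -/
noncomputable def NnF (p : ℕ) (φ : Fˣ →* A) (hφ : Function.Surjective φ) (a : A) : Subgroup A :=
  if a = 1 then ⊤ else (nmG p (Function.surjInv hφ a)).map φ

include hk in
lemma mem_Nn (hng : S_NG) (hp : p.Prime) (hp2 : p ≠ 2) {u b : Fˣ} (hu : φ u ≠ 1) :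
    φ b ∈ NnF p φ hφ (φ u) ↔ b ∈ nmG p u := by
  obtain ⟨h1, -, h3⟩ := hng p hp hp2 F
  obtain ⟨k, hk'⟩ : ∃ k : Fˣ, Function.surjInv hφ (φ u) = u * k ^ p := by
    have : φ (Function.surjInv hφ (φ u) / u) = 1 := by
      rw [map_div, Function.surjInv_eq hφ, div_self']
    rw [phi_one hk] at this
    obtain ⟨k, hk'⟩ := this
    exact ⟨k, by rw [← hk', mul_div_cancel]⟩
  rw [NnF, if_neg hu, hk', h3, Subgroup.mem_map]
  constructor
  · rintro ⟨c, hc, e⟩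
    have : φ (b / c) = 1 := by rw [map_div, e, div_self']
    rw [phi_one hk] at this
    obtain ⟨d, hd⟩ := this
    have e2 : b = d ^ p * c := by rw [← hd, div_mul_cancel]
    rw [e2]
    exact mul_mem (h1 u d) hc
  · exact fun h => ⟨b, h, rfl⟩

include hk in
lemma sys (hng : S_NG) (hsy : S_SYMM) (hp : p.Prime) (hp2 : p ≠ 2)
    (hζ : ∃ ζ : F, IsPrimitiveRoot ζ p) (N : ℕ)
    (hN : ∀ a : Fˣ, a ∉ pwG F p →
      (pwG F p).relIndex (nmG p a) ≠ 0 ∧ (pwG F p).relIndex (nmG p a) ≤ N) :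
    Sys φ (NnF p φ hφ) N := by
  obtain ⟨ζ, hζ⟩ := hζ
  have hodd : Odd p := hp.odd_of_ne_two hp2
  refine ⟨hφ, ?_, ?_, ?_, ?_⟩
  · rw [phi_one hk]
    exact ⟨-1, hodd.neg_one_pow.symm⟩
  · intro a b hab
    obtain ⟨u, rfl⟩ := hφ a
    obtain ⟨v, rfl⟩ := hφ b
    by_cases hv : φ v = 1
    · rw [NnF, if_pos hv]; trivial
    by_cases hu : φ u = 1
    · rw [hu]; exact one_mem _
    rw [mem_Nn hφ hk hng hp hp2 hu] at hab
    rw [mem_Nn hφ hk hng hp hp2 hv]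
    refine hsy p hp hp2 F ζ hζ u v ?_ ?_ hab
    · rw [← hk, MonoidHom.mem_ker]; exact hu
    · rw [← hk, MonoidHom.mem_ker]; exact hv
  · intro u v huv
    by_cases hu : φ u = 1
    · rw [NnF, if_pos hu]; trivial
    rw [mem_Nn hφ hk hng hp hp2 hu]
    exact (hng p hp hp2 F).2.1 u v huv
  · intro a ha
    obtain ⟨u, rfl⟩ := hφ a
    have hu : u ∉ pwG F p := by rw [← hk, MonoidHom.mem_ker]; exact ha
    have e : NnF p φ hφ (φ u) = (nmG p u).map φ := by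
      ext b
      obtain ⟨v, rfl⟩ := hφ b
      rw [mem_Nn hφ hk hng hp hp2 ha]
      constructor
      · exact fun h => ⟨v, h, rfl⟩
      · rintro ⟨c, hc, e⟩
        have h1 : φ c ∈ NnF p φ hφ (φ u) := (mem_Nn hφ hk hng hp hp2 ha).2 hc
        rw [e] at h1
        exact (mem_Nn hφ hk hng hp hp2 ha).1 h1
    obtain ⟨h1, h2⟩ := hN u hu
    rw [← hk, Subgroup.relIndex_ker, ← e] at h1 h2
    have hf : Finite (NnF p φ hφ (φ u)) := Nat.finite_of_card_ne_zero h1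
    refine ⟨Set.toFinite _, ?_⟩
    rw [← Nat.card_coe_set_eq]
    exact h2

end quot

section rp

variable {F : Type} [Field F] {A : Type} [CommGroup A] {φ : Fˣ →* A}

/-- rigidity outside `NR` -/
lemma rigid_of (hn : φ (-1) = 1) {x : Fˣ} (hx : φ x ∉ NR φ) (h1 : φ x ≠ 1) :
    ∃ s : Fˣ, (s : F) = 1 + x ∧ (φ s = 1 ∨ φ s = φ x) := by
  have hs : (1 : F) + x ≠ 0 := by
    have := add_ne hn (x := 1) (y := x) (by rw [map_one]; exact fun e => h1 e.symm)
    rwa [Units.val_one] at this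
  refine ⟨Units.mk0 _ hs, Units.val_mk0 hs, ?_⟩
  by_contra hc
  rw [not_or] at hc
  apply hx
  refine ⟨h1, -x, Units.mk0 _ hs, phi_neg hn x, ?_, hc.1, hc.2⟩
  rw [Units.val_neg, Units.val_mk0]
  ring

lemma ml_of (hn : φ (-1) = 1) {x : Fˣ} (hx : φ x ∉ NR φ) (h1 : φ x ≠ 1) :
    Ml φ x 1 ∨ Ml φ x⁻¹ 1 := by
  obtain ⟨s, hs, h | h⟩ := rigid_of hn hx h1
  · left
    exact ⟨s, by rw [hs, Units.val_one], by rw [h, map_one]⟩
  · right
    refine ⟨s / x, ?_, ?_⟩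
    · rw [Units.val_div_eq_div_val, hs, Units.val_one, Units.val_inv_eq_inv_val]
      field_simp
      ring
    · rw [map_div, h, map_one, div_self']

lemma rp_of (hn : φ (-1) = 1) (K : Subgroup A) (hK : NR φ ⊆ K) :
    RP φ.ker (K.comap φ) := by
  refine ⟨?_, ?_, ?_⟩
  · intro x hx
    rw [Subgroup.mem_comap, MonoidHom.mem_ker.1 hx]
    exact one_mem _
  · rw [Subgroup.mem_comap, hn]
    exact one_mem _
  · intro x hx
    rw [Subgroup.mem_comap] at hx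
    obtain ⟨s, hs, h | h⟩ := rigid_of hn (fun h => hx (hK h)) (fun h => hx (h ▸ one_mem _))
    · exact Or.inl ⟨s, MonoidHom.mem_ker.2 h, hs⟩
    · refine Or.inr ⟨s / x, ?_, ?_⟩
      · rw [MonoidHom.mem_ker, map_div, h, div_self']
      · rw [mul_div_cancel, hs]

end rp

/-- all statements used for the valuation ring -/
structure All : Prop where
  l1 : S_L1
  calc' : S_CALC
  ru : S_RU
  diff : S_DIFF
  su : S_SU
  pig : S_PIG
  fib : S_FIB
  pick : S_PICK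
  cnt : S_CNT
  grp : S_GRP
  pcd : S_PCD
  wb : S_WB'
  coarse : S_COARSE'
  symm : S_SYMM
  ng : S_NG

theorem exists_ring (h : All) (p : ℕ) (hp : p.Prime) (hp2 : p ≠ 2) (F : Type) [Field F]
    (hζ : ∃ ζ : F, IsPrimitiveRoot ζ p) (N : ℕ) (hN1 : 1 ≤ N)
    (hN : ∀ a : Fˣ, a ∉ pwG F p →
      (pwG F p).relIndex (nmG p a) ≠ 0 ∧ (pwG F p).relIndex (nmG p a) ≤ N) :
    ∃ (H : Subgroup Fˣ) (O : ValuationSubring F), pwG F p ≤ H ∧
      (pwG F p).relIndex H ≠ 0 ∧ (pwG F p).relIndex H ≤ 78 * p ^ 2 * N ^ 5 ∧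
      O.unitGroup ≤ H ∧ Pw p O := by
  obtain ⟨A, _, φ, hφ, hk⟩ := exists_quot F (pwG F p)
  have hS := sys hφ hk h.ng h.symm hp hp2 hζ N hN
  have hodd : Odd p := hp.odd_of_ne_two hp2
  obtain ⟨ζ, hζ⟩ := hζ
  have hζ0 : ζ ≠ 0 := hζ.ne_zero hp.ne_zero
  have hζ' : IsPrimitiveRoot (Units.mk0 ζ hζ0) p := by
    rw [← IsPrimitiveRoot.coe_units_iff]
    exact hζ
  have hpF : (p : F) ≠ 0 := by
    haveI : NeZero p := ⟨hp.ne_zero⟩
    exact hζ.neZero'.ne
  have hexp : ∀ a : A, a ^ p = 1 := exp_p hφ hk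
  obtain ⟨hf, hc⟩ := h.cnt h.l1 h.calc' h.ru h.diff h.su h.pig h.fib h.pick F p hp hp2 _ hζ' A φ _
    N hS (fun x => hexp _)
  have hHL := h.l1 F A φ _ N hS
  obtain ⟨hg1, hg2⟩ := h.grp h.su F p hp hp2 A φ N hN1 hφ hexp hf hc (by
    rintro a ⟨ha1, r, s, hr, hrs, hs1, hs2⟩
    refine ⟨r, hr, ?_⟩
    exact (h.calc' F A φ _ hS.neg hHL).2.2 r s hrs (by rw [hr]; exact ha1) hs1 (by rw [hr]; exact hs2))
    (fun x hx h1 => ml_of hS.neg hx h1)
  set K := Subgroup.closure (NR φ) with hKdef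
  have hRP : RP φ.ker (K.comap φ) := rp_of hS.neg K Subgroup.subset_closure
  have hsq : ∀ x : Fˣ, x * x ∈ K.comap φ → x ∈ K.comap φ := by
    intro x hx
    rw [Subgroup.mem_comap] at hx ⊢
    obtain ⟨m, hm⟩ := hodd
    have : φ x = φ (x * x) ^ (m + 1) := by
      rw [map_mul, ← pow_two, ← pow_mul, show 2 * (m + 1) = p + 1 by omega, pow_succ, hexp,
        one_mul]
    rw [this]
    exact pow_mem hx _
  have hP := h.pcd F φ.ker (K.comap φ) hRP hsq
  obtain ⟨O, hO⟩ := h.wb F φ.ker (K.comap φ) hRP hP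
  obtain ⟨O', -, hpO, hO'⟩ := h.coarse F p hp hpF φ.ker (K.comap φ)
    (fun x => by rw [MonoidHom.mem_ker, phi_one hk]) hRP.le O hO
  refine ⟨K.comap φ, O', ?_, ?_, ?_, ?_, hpO, hpF, ?_⟩
  · rw [← hk]; exact hRP.le
  · rw [← hk, Subgroup.relIndex_ker, Subgroup.map_comap_eq_self_of_surjective hφ]
    exact hg1
  · rw [← hk, Subgroup.relIndex_ker, Subgroup.map_comap_eq_self_of_surjective hφ]
    exact hg2
  · intro u hu
    refine hO'.units u ?_ ?_
    · rw [← ValuationSubring.valuation_le_one_iff]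
      exact le_of_eq hu
    · rw [← ValuationSubring.valuation_le_one_iff]
      exact le_of_eq (inv_mem hu : u⁻¹ ∈ O'.unitGroup)
  · intro x hx hx'
    obtain ⟨t, ht, e⟩ := hO'.one x hx hx'
    rw [MonoidHom.mem_ker, phi_one hk] at ht
    obtain ⟨b, rfl⟩ := ht
    exact ⟨b, by rw [← e, Units.val_pow_eq_pow_val]⟩

end Pool.Agent.Y920.EP
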