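import Mathlib
import Pool.Agent.Y920.EP.Stm
import Pool.Agent.Y920.ETC.Stm3
import Pool.Agent.Y620.ET.Extv

set_option autoImplicit false

/-! The maximal p-extension of a field with a compatible valuation, `p` odd. -/

namespace Pool.Agent.Y920.EP

open Pool.Agent.Y920.ETC (S_EXTV)

/-- the compositum of the finite Galois extensions of p-power degree -/
def IsMaxP (p : ℕ) (F : Type) [Field F] (K : IntermediateField F (AlgebraicClosure F)) : Prop :=
  K = sSup {L : IntermediateField F (AlgebraicClosure F) |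
    FiniteDimensional F L ∧ IsGalois F L ∧ ∃ k : ℕ, Module.finrank F L = p ^ k}

/-- the whole Galois group is the decomposition group of `w`, and the inertia group is not
trivial -/
def DecInert (F K : Type) [Field F] [Field K] [Algebra F K] : Prop :=
  ∃ (Γ : Type) (_ : LinearOrderedCommGroupWithZero Γ) (w : Valuation K Γ),
    (∀ (σ : K ≃ₐ[F] K) (x : K), w (σ x) ≤ 1 ↔ w x ≤ 1) ∧
    ∃ σ : K ≃ₐ[F] K, σ ≠ 1 ∧ ∀ x : K, w x ≤ 1 → w (σ x - x) < 1

/-- statements on Galois groups -/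
structure AllG : Prop where
  kum : S_KUM
  up : S_UP
  tower : S_TOWER'
  inert : S_INERT'
  mx : S_MAX'

theorem decInert (h : AllG) (p : ℕ) (hp : p.Prime) (hp2 : p ≠ 2) (F : Type) [Field F]
    (hζ : ∃ ζ : F, IsPrimitiveRoot ζ p)
    (O : ValuationSubring F) (hO : Pw p O)
    (hc : ∃ c : Fˣ, ∀ f : Fˣ, ¬ (((c * f ^ p : Fˣ) : F) ∈ O ∧ (((c * f ^ p)⁻¹ : Fˣ) : F) ∈ O))
    (K : IntermediateField F (AlgebraicClosure F)) (hK : IsMaxP p F K) : DecInert F K := by
  obtain ⟨hG, hL, hsq⟩ := h.mx p hp F hζ K hK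
  obtain ⟨O₁, hO₁⟩ := Pool.Agent.Y620.ET.t_EXTV F K O
  have hmem : ∀ f : F, algebraMap F K f ∈ O₁ ↔ f ∈ O := by
    intro f
    rw [← hO₁, ValuationSubring.mem_comap]
  have hinv : ∀ (σ : K ≃ₐ[F] K) (x : K), σ x ∈ O₁ ↔ x ∈ O₁ := by
    intro σ x
    obtain ⟨L, hxL, hfd, hgal, k, hk⟩ := hL x
    let O₂ : ValuationSubring K := O₁.comap (σ : K →+* K)
    have h1 : (O₁.comap (algebraMap L K)).comap (algebraMap F L) = O := by
      rw [← hO₁]
      ext f
      rw [ValuationSubring.mem_comap, ValuationSubring.mem_comap, ValuationSubring.mem_comap]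
      rfl
    have h3 : (O₂.comap (algebraMap L K)).comap (algebraMap F L) = O := by
      rw [← hO₁]
      ext f
      rw [ValuationSubring.mem_comap, ValuationSubring.mem_comap, ValuationSubring.mem_comap,
        ValuationSubring.mem_comap]
      have : (σ : K →+* K) (algebraMap L K (algebraMap F L f)) = algebraMap F K f := σ.commutes f
      rw [this]
    have h4 := h.tower h.kum h.up p hp hp2 k F L hζ hk O hO _ _ h1 h3
    have h5 : (⟨x, hxL⟩ : L) ∈ O₁.comap (algebraMap L K) ↔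
        (⟨x, hxL⟩ : L) ∈ O₂.comap (algebraMap L K) := by rw [h4]
    rw [ValuationSubring.mem_comap, ValuationSubring.mem_comap, ValuationSubring.mem_comap] at h5
    exact h5.symm
  obtain ⟨c, hc⟩ := hc
  obtain ⟨y, hy⟩ := hsq (c : F)
  obtain ⟨σ, hσ1, hσ⟩ := h.inert p hp F K hζ O₁ hinv (c : F) y c.ne_zero hy (by
    intro f hf h3 h4
    rw [hmem] at h3 h4
    refine hc (Units.mk0 f hf) ⟨?_, ?_⟩
    · rw [Units.val_mul, Units.val_pow_eq_pow_val, Units.val_mk0]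
      exact h3
    · rw [Units.val_inv_eq_inv_val, Units.val_mul, Units.val_pow_eq_pow_val, Units.val_mk0]
      exact h4)
  refine ⟨O₁.ValueGroup, inferInstance, O₁.valuation, ?_, σ, hσ1, ?_⟩
  · intro σ x
    rw [ValuationSubring.valuation_le_one_iff, ValuationSubring.valuation_le_one_iff]
    exact hinv σ x
  · intro x hx
    exact hσ x ((ValuationSubring.valuation_le_one_iff _ _).1 hx)

/-- the conclusion of Efrat's elementary type conjecture -/
def EfratP (p : ℕ) [Fact p.Prime] (F : Type) [Field F]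
    (K : IntermediateField F (AlgebraicClosure F)) : Prop :=
  ∃ (n : ℕ) (H : Fin n → Subgroup (↥K ≃ₐ[F] ↥K)),
    (∀ i, IsClosed (H i : Set (↥K ≃ₐ[F] ↥K))) ∧
    (∀ (P : Type) [Group P] [Finite P], (∃ k : ℕ, Nat.card P = p ^ k) →
      ∀ φ : (i : Fin n) → (H i →* P), (∀ i, IsOpen ((φ i).ker : Set (H i))) →
        ∃! ψ : (↥K ≃ₐ[F] ↥K) →* P,
          IsOpen (ψ.ker : Set (↥K ≃ₐ[F] ↥K)) ∧
          ∀ i, ∀ x : H i, ψ (x : ↥K ≃ₐ[F] ↥K) = φ i x) ∧
    (∀ i,
      Nonempty (H i ≃ₜ* Multiplicative (PadicInt p)) ∨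
      (∃ (Γ : Type) (_ : LinearOrderedCommGroupWithZero Γ) (w : Valuation (↥K) Γ),
        (∀ σ : ↥K ≃ₐ[F] ↥K, σ ∈ H i ↔ ∀ x : ↥K, (w (σ x) ≤ 1 ↔ w x ≤ 1)) ∧
        ∃ σ ∈ H i, σ ≠ 1 ∧ ∀ x : ↥K, w x ≤ 1 → w (σ x - x) < 1) ∨
      (p = 2 ∧ Nat.card (H i) = 2))

theorem efratP (p : ℕ) [Fact p.Prime] (F : Type) [Field F]
    (K : IntermediateField F (AlgebraicClosure F)) (h : DecInert F K) : EfratP p F K := by
  obtain ⟨Γ, hΓ, w, hw, σ, hσ, hσw⟩ := h
  refine ⟨1, fun _ => ⊤, fun _ => isClosed_univ, ?_, ?_⟩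
  · intro P _ _ _ φ hφ
    refine ⟨(φ 0).comp (Subgroup.topEquiv (G := (↥K ≃ₐ[F] ↥K))).symm.toMonoidHom, ⟨?_, ?_⟩, ?_⟩
    · have h1 : (((φ 0).comp
          (Subgroup.topEquiv (G := (↥K ≃ₐ[F] ↥K))).symm.toMonoidHom).ker : Set (↥K ≃ₐ[F] ↥K)) =
          Subtype.val '' ((φ 0).ker : Set ((⊤ : Subgroup (↥K ≃ₐ[F] ↥K)))) := by
        ext g
        constructor
        · intro hg
          exact ⟨⟨g, trivial⟩, hg, rfl⟩
        · rintro ⟨g', hg', rfl⟩
          exact hg'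
      rw [h1]
      exact (isOpen_univ.isOpenEmbedding_subtypeVal).isOpenMap _ (hφ 0)
    · intro i x
      have : i = 0 := Subsingleton.elim _ _
      subst this
      rfl
    · rintro ψ ⟨-, hψ⟩
      ext g
      exact hψ 0 ⟨g, trivial⟩
  · intro i
    right
    left
    refine ⟨Γ, hΓ, w, fun τ => ⟨fun _ x => hw τ x, fun _ => trivial⟩, σ, trivial, hσ, hσw⟩

end Pool.Agent.Y920.EP
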